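import Pool.Agent.Helper29.UD.PSD

/-!
# Determinants of forms under rank one changes (project S7, upper bound for all diagrams)
-/

set_option autoImplicit false

namespace Pool.Agent.Helper12.GD

open Matrix Pool.Agent.Helper29.UD
open scoped ComplexOrder MatrixOrder

variable {ι : Type*} [Fintype ι]

/-- a real valued function of a complex vector which is the value of a Hermitian matrix -/
def IsForm (f : (ι → ℂ) → ℝ) : Prop := ∃ B : Matrix ι ι ℂ, B.IsHermitian ∧ ∀ v, qf B v = f v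

theorem IsForm.add {f g : (ι → ℂ) → ℝ} (hf : IsForm f) (hg : IsForm g) : IsForm fun v => f v + g v := by
  obtain ⟨A, hA, h1⟩ := hf
  obtain ⟨B, hB, h2⟩ := hg
  exact ⟨A + B, hA.add hB, fun v => by rw [qf_add, h1, h2]⟩

theorem IsForm.smul {f : (ι → ℂ) → ℝ} (hf : IsForm f) (a : ℝ) : IsForm fun v => a * f v := by
  obtain ⟨A, hA, h1⟩ := hf
  refine ⟨(a : ℂ) • A, ?_, fun v => ?_⟩
  · unfold IsHermitian
    rw [conjTranspose_smul, hA.eq]
    simp
  · unfold qf
    rw [smul_mulVec, dotProduct_smul, smul_eq_mul, Complex.re_ofReal_mul]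
    congr 1
    exact h1 v

theorem IsForm.sub {f g : (ι → ℂ) → ℝ} (hf : IsForm f) (hg : IsForm g) : IsForm fun v => f v - g v := by
  obtain ⟨A, hA, h1⟩ := hf
  obtain ⟨B, hB, h2⟩ := hg
  exact ⟨A - B, hA.sub hB, fun v => by rw [qf_sub, h1, h2]⟩

theorem isForm_zero : IsForm fun _ : ι → ℂ => (0 : ℝ) :=
  ⟨0, isHermitian_zero, fun v => by simp [qf]⟩

theorem isForm_sum {α : Type*} (s : Finset α) {f : α → (ι → ℂ) → ℝ} (hf : ∀ a ∈ s, IsForm (f a)) :
    IsForm fun v => ∑ a ∈ s, f a v := by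
  classical
  induction s using Finset.induction_on with
  | empty => simpa using isForm_zero
  | insert a s ha ih =>
    have h1 := (hf a (Finset.mem_insert_self _ _)).add (ih fun b hb => hf b (Finset.mem_insert_of_mem hb))
    simpa [Finset.sum_insert ha] using h1

/-- the square of a linear functional -/
theorem isForm_sq (g : ι → ℂ) : IsForm fun v => ‖g ⬝ᵥ v‖ ^ 2 := by
  refine ⟨vecMulVec (star g) g, ?_, fun v => ?_⟩
  · have := (posSemidef_vecMulVec_self_star (star g)).isHermitian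
    simpa using this
  · have h := qf_rank (star g) v 1
    rw [star_star] at h
    simpa using h

/-- a function which is a linear functional -/
def IsLin (f : (ι → ℂ) → ℂ) : Prop := ∃ g : ι → ℂ, ∀ v, g ⬝ᵥ v = f v

theorem IsLin.add {f g : (ι → ℂ) → ℂ} (hf : IsLin f) (hg : IsLin g) : IsLin fun v => f v + g v := by
  obtain ⟨a, ha⟩ := hf
  obtain ⟨b, hb⟩ := hg
  exact ⟨a + b, fun v => by rw [add_dotProduct, ha, hb]⟩

theorem IsLin.smul {f : (ι → ℂ) → ℂ} (hf : IsLin f) (c : ℂ) : IsLin fun v => c * f v := by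
  obtain ⟨a, ha⟩ := hf
  exact ⟨c • a, fun v => by rw [smul_dotProduct, ha, smul_eq_mul]⟩

theorem isLin_zero : IsLin fun _ : ι → ℂ => (0 : ℂ) := ⟨0, fun v => by simp⟩

theorem IsLin.sq {f : (ι → ℂ) → ℂ} (hf : IsLin f) : IsForm fun v => ‖f v‖ ^ 2 := by
  obtain ⟨a, ha⟩ := hf
  obtain ⟨B, hB, h⟩ := isForm_sq a
  exact ⟨B, hB, fun v => by rw [h]; simp only [ha]⟩

theorem IsLin.polar {f g : (ι → ℂ) → ℂ} (hf : IsLin f) (hg : IsLin g) :
    IsForm fun v => (star (f v) * g v).re := by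
  have h1 := (hf.add hg).sq
  have h2 := (hf.add (hg.smul (-1))).sq
  have h3 := (h1.sub h2).smul (1 / 4)
  obtain ⟨B, hB, h⟩ := h3
  refine ⟨B, hB, fun v => ?_⟩
  rw [h]
  have key : ∀ a b : ℂ, 1 / 4 * (‖a + b‖ ^ 2 - ‖a + -1 * b‖ ^ 2) = (star a * b).re := by
    intro a b
    rw [Complex.sq_norm, Complex.sq_norm, Complex.normSq_apply, Complex.normSq_apply]
    simp
    ring
  exact key _ _

variable [DecidableEq ι]

/-- monotonicity -/
theorem det_re_mono {A B : Matrix ι ι ℂ} (hA : A.PosDef) (hB : B.IsHermitian) (h : ∀ v, qf A v ≤ qf B v) :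
    A.det.re ≤ B.det.re := by
  have h1 := det_mono hA (psd_of (hB.sub hA.isHermitian) fun v => by
    rw [qf_sub]
    linarith [h v])
  exact (Complex.le_def.1 h1).1

omit [DecidableEq ι] in
theorem posDef_of_le {A B : Matrix ι ι ℂ} (hA : A.PosDef) (hB : B.IsHermitian) (h : ∀ v, qf A v ≤ qf B v) :
    B.PosDef := by
  have h1 : (B - A).PosSemidef := psd_of (hB.sub hA.isHermitian) fun v => by
    rw [qf_sub]
    linarith [h v]
  have h2 := hA.add_posSemidef h1
  simpa using h2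

theorem det_re_pos {A : Matrix ι ι ℂ} (hA : A.PosDef) : 0 < A.det.re := (Complex.lt_def.1 hA.det_pos).1

/-- one rank one change -/
theorem rank_one {A : Matrix ι ι ℂ} (hA : A.PosDef) {g : ι → ℂ} {δ C : ℝ} (hδ : 0 ≤ δ) (hC : 0 ≤ C)
    (h2 : ∀ v, ‖g ⬝ᵥ v‖ ^ 2 ≤ C * qf A v) :
    ∃ B : Matrix ι ι ℂ, B.PosDef ∧ (∀ v, qf B v = qf A v + δ * ‖g ⬝ᵥ v‖ ^ 2) ∧
      B.det.re ≤ (1 + δ * C) * A.det.re := by
  obtain ⟨q, hq⟩ : ∃ q : ι → ℂ, q = star g := ⟨_, rfl⟩
  have hqv : ∀ v, star q ⬝ᵥ v = g ⬝ᵥ v := fun v => by rw [hq, star_star]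
  obtain ⟨B, hB⟩ : ∃ B, B = A + vecMulVec ((δ : ℂ) • q) (star q) := ⟨_, rfl⟩
  have hBH : B.IsHermitian := by
    rw [hB]
    refine hA.isHermitian.add ?_
    have : (vecMulVec q (star q) : Matrix ι ι ℂ).IsHermitian := (posSemidef_vecMulVec_self_star q).isHermitian
    rw [smul_vecMulVec]
    unfold IsHermitian
    rw [conjTranspose_smul, this.eq]
    simp
  have hval : ∀ v, qf B v = qf A v + δ * ‖g ⬝ᵥ v‖ ^ 2 := fun v => by rw [hB, qf_add, qf_rank, hqv]
  have hBp : B.PosDef := posDef_of_le hA hBH fun v => by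
    rw [hval]
    have : 0 ≤ δ * ‖g ⬝ᵥ v‖ ^ 2 := by positivity
    linarith
  refine ⟨B, hBp, hval, ?_⟩
  have hAu : IsUnit A.det := isUnit_iff_ne_zero.2 hA.det_pos.ne'
  obtain ⟨x, hx⟩ : ∃ x, x = A⁻¹ *ᵥ q := ⟨_, rfl⟩
  have hAx : A *ᵥ x = q := by
    rw [hx, mulVec_mulVec, mul_nonsing_inv _ hAu, one_mulVec]
  have e1 : B.det = A.det * (1 + (δ : ℂ) * (star q ⬝ᵥ x)) := by
    rw [hB, vecMulVec_eq Unit, det_add_replicateCol_mul_replicateRow hAu]
    congr 1
    rw [det_unique, Matrix.add_apply, one_apply_eq, Matrix.mul_assoc, ← replicateCol_mulVec, replicateRow_mul_replicateCol_apply,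
      mulVec_smul, ← hx, dotProduct_smul, smul_eq_mul]
  have e2 : star q ⬝ᵥ x = (qf A x : ℂ) := by
    have h3 : star x ⬝ᵥ q = (qf A x : ℂ) := by
      rw [← hAx]
      nth_rewrite 1 [hAx]
      rw [← hAx, eq_qf hA.isHermitian]
    have h4 : star q ⬝ᵥ x = star (star x ⬝ᵥ q) := star_dotProduct q x
    rw [h4, h3, Complex.star_def, Complex.conj_ofReal]
  have h6 : qf A x ^ 2 ≤ C * qf A x := by
    have h7 := h2 x
    rw [← hqv, e2, Complex.norm_real, Real.norm_eq_abs, sq_abs] at h7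
    exact h7
  have h8 : qf A x ≤ C := by
    by_contra hcon
    push Not at hcon
    have : 0 < qf A x := lt_of_le_of_lt hC hcon
    nlinarith
  have him : A.det.im = 0 := by
    have := (Complex.lt_def.1 hA.det_pos).2
    simpa using this.symm
  have e3 : B.det.re = A.det.re * (1 + δ * qf A x) := by
    rw [e1, e2]
    simp [him]
  rw [e3, mul_comm]
  refine mul_le_mul_of_nonneg_right ?_ (det_re_pos hA).le
  nlinarith

/-- several rank one changes: `B ≤ A + δ Σ |g|²`, all `|g|² ≤ C A` -/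
theorem ranks {A : Matrix ι ι ℂ} (hA : A.PosDef) {δ C : ℝ} (hδ : 0 ≤ δ) (hC : 0 ≤ C) (gs : List (ι → ℂ))
    (h2 : ∀ g ∈ gs, ∀ v, ‖g ⬝ᵥ v‖ ^ 2 ≤ C * qf A v) {B : Matrix ι ι ℂ} (hB : B.PosDef)
    (h1 : ∀ v, qf B v ≤ qf A v + δ * (gs.map fun g => ‖g ⬝ᵥ v‖ ^ 2).sum) :
    B.det.re ≤ (1 + δ * C) ^ gs.length * A.det.re := by
  induction gs generalizing A with
  | nil =>
    simp only [List.length_nil, pow_zero, one_mul]
    exact det_re_mono hB hA.isHermitian fun v => by simpa using h1 v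
  | cons g gs ih =>
    obtain ⟨A', hA', hv, hd⟩ := rank_one hA hδ hC (h2 g List.mem_cons_self)
    have h3 : ∀ v, qf A v ≤ qf A' v := fun v => by
      rw [hv]
      have : 0 ≤ δ * ‖g ⬝ᵥ v‖ ^ 2 := by positivity
      linarith
    have h4 := ih hA' (fun g' hg' v => (h2 g' (List.mem_cons_of_mem _ hg') v).trans
      (mul_le_mul_of_nonneg_left (h3 v) hC)) (fun v => by
        have := h1 v
        rw [List.map_cons, List.sum_cons] at this
        rw [hv]
        linarith)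
    refine h4.trans ?_
    rw [List.length_cons, pow_succ, mul_assoc]
    exact mul_le_mul_of_nonneg_left hd (by positivity)

end Pool.Agent.Helper12.GD
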