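import Pool.Agent.Helper29.UD.Letter

/-!
# One crossing: the local inequality (the local part of `Helper29.UD.letter`)
-/

set_option autoImplicit false

namespace Pool.Agent.Helper12.GD

open Complex ComplexConjugate Matrix Pool.Agent.Helper29.UD

/-- **One crossing.** -/
theorem loc {s : ℂ} (h0 : s ≠ 0) (h1 : ‖s‖ < 1) {S : ℝ} (hS : 1 ≤ S)
    (hS2 : S * (1 + ‖s‖ ^ 4 + 2 * s.im ^ 2) ≤ S ^ 2 + ‖s‖ ^ 4) :
    ∃ h c r : ℝ, h = (‖s‖⁻¹ + ‖s‖) / 2 ∧ c = s.re / ‖s‖ ∧ 0 < r ∧ r ^ 2 = h ^ 2 - c ^ 2 ∧ |c| ≤ 1 ∧ 1 < h ∧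
      ∃ p q : ℂ, (∀ x y : ℂ, q2 h c (h + r) (-s ^ 2 * x + s * y) y ≤
        q2 h c (h + r) x y + (S - 1) * ‖p * x + q * y‖ ^ 2) ∧
        ∀ x y : ℂ, ‖p * x + q * y‖ ^ 2 ≤ q2 h c (h + r) x y := by
  obtain ⟨m, hm⟩ : ∃ m, m = ‖s‖ := ⟨_, rfl⟩
  have hm0 : 0 < m := by rw [hm]; exact norm_pos_iff.2 h0
  obtain ⟨h, hh⟩ : ∃ h, h = (‖s‖⁻¹ + ‖s‖) / 2 := ⟨_, rfl⟩
  obtain ⟨c, hcd⟩ : ∃ c, c = s.re / ‖s‖ := ⟨_, rfl⟩
  rw [← hm] at h1
  have hhs := hh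
  have hcs := hcd
  rw [← hm] at hh hcd
  have hh1 : 1 < h := by
    rw [hh]
    have : m * m⁻¹ = 1 := mul_inv_cancel₀ hm0.ne'
    have h2 : 0 < (1 - m) ^ 2 := by
      have : 0 < 1 - m := by linarith
      positivity
    have h3 : 0 < m⁻¹ := inv_pos.2 hm0
    nlinarith
  have hnsq : m ^ 2 = s.re ^ 2 + s.im ^ 2 := by
    rw [hm, ← Complex.normSq_eq_norm_sq, Complex.normSq_apply]
    ring
  have hc1 : |c| ≤ 1 := by
    rw [hcd, abs_div, abs_of_pos hm0, div_le_one hm0, hm]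
    exact Complex.abs_re_le_norm s
  have hc : |c| < h := lt_of_le_of_lt hc1 hh1
  have hcm : c * m = s.re := by rw [hcd, div_mul_cancel₀ _ hm0.ne']
  have him : s.im ^ 2 = m ^ 2 * (1 - c ^ 2) := by
    have : (c * m) ^ 2 = s.re ^ 2 := by rw [hcm]
    nlinarith
  obtain ⟨r, hr0, hr2, -⟩ := sqrt_facts hc
  obtain ⟨α, hα⟩ : ∃ α, α = h + r := ⟨_, rfl⟩
  have hh0 : 0 < h := by linarith
  have hα0 : 0 < α := by rw [hα]; linarith
  have hαe : α ^ 2 + c ^ 2 = 2 * h * α := by rw [hα]; nlinarith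
  -- normalisations
  have hY : α / 2 - c ^ 2 / (2 * h) = α * r / (2 * h) := by
    have : α * h - c ^ 2 = α * r := by rw [hα]; nlinarith
    field_simp
    linarith
  have hYp : 0 < α * r / (2 * h) := by positivity
  obtain ⟨r1, hr1⟩ : ∃ r1, r1 = √(2 * h) := ⟨_, rfl⟩
  obtain ⟨r2, hr2d⟩ : ∃ r2, r2 = √(α * r / (2 * h)) := ⟨_, rfl⟩
  have hr1p : 0 < r1 := by rw [hr1]; exact Real.sqrt_pos.2 (by positivity)
  have hr2p : 0 < r2 := by rw [hr2d]; exact Real.sqrt_pos.2 hYp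
  have hr1s : r1 ^ 2 = 2 * h := by rw [hr1]; exact Real.sq_sqrt (by positivity)
  have hr2s : r2 ^ 2 = α * r / (2 * h) := by rw [hr2d]; exact Real.sq_sqrt hYp.le
  obtain ⟨e, he⟩ : ∃ e : ℂ, e = 2 * h - c * (s⁻¹ + s) := ⟨_, rfl⟩
  obtain ⟨β, hβ⟩ : ∃ β : ℂ, β = s * e / (r1 * r2) := ⟨_, rfl⟩
  -- `q2 = |X|² + |Y|²`
  have hq2 : ∀ x y : ℂ, q2 h c α x y = ‖(r1 : ℂ) * (x - (c / (2 * h) : ℝ) * y)‖ ^ 2 + ‖(r2 : ℂ) * y‖ ^ 2 := by
    intro x y
    rw [norm_mul, norm_mul, mul_pow, mul_pow, Complex.norm_real, Complex.norm_real, Real.norm_of_nonneg hr1p.le,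
      Real.norm_of_nonneg hr2p.le, hr1s, hr2s, ← hY, sub_eq_add_neg x, norm_sq_add, norm_neg, norm_mul, Complex.norm_real,
      Real.norm_eq_abs, mul_pow, sq_abs]
    have e1 : (conj x * -(((c / (2 * h) : ℝ) : ℂ) * y)).re = -(c / (2 * h) * (conj x * y).re) := by
      have : conj x * -(((c / (2 * h) : ℝ) : ℂ) * y) = -(((c / (2 * h) : ℝ) : ℂ) * (conj x * y)) := by ring
      rw [this, Complex.neg_re, Complex.re_ofReal_mul]
    rw [e1]
    unfold q2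
    field_simp
    ring
  -- the letter in the new coordinates
  have hlet : ∀ x y : ℂ, (r1 : ℂ) * ((-s ^ 2 * x + s * y) - (c / (2 * h) : ℝ) * y) =
      -s ^ 2 * ((r1 : ℂ) * (x - (c / (2 * h) : ℝ) * y)) + β * ((r2 : ℂ) * y) := by
    intro x y
    have hr1c : (r1 : ℂ) ≠ 0 := by exact_mod_cast hr1p.ne'
    have hr2c : (r2 : ℂ) ≠ 0 := by exact_mod_cast hr2p.ne'
    have hhc : (h : ℂ) ≠ 0 := by exact_mod_cast hh0.ne'
    have hr1s' : (r1 : ℂ) ^ 2 = 2 * h := by exact_mod_cast hr1s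
    have hse : s * e = 2 * h * s - c * (1 + s ^ 2) := by
      rw [he]
      field_simp
    have e1 : β * ((r2 : ℂ) * y) = s * e / r1 * y := by
      rw [hβ]
      field_simp
    rw [e1, hse]
    push_cast
    field_simp
    linear_combination (2 * h * s * y - c * y - c * s ^ 2 * y) * hr1s'
  -- the size of `β`
  have hβn : ‖β‖ ^ 2 ≤ 2 * s.im ^ 2 := by
    have hen : ‖e‖ ^ 2 = 4 * (1 - c ^ 2) * (h ^ 2 - c ^ 2) := by
      obtain ⟨κ, hκ⟩ : ∃ κ : ℝ, κ = (m ^ 2)⁻¹ := ⟨_, rfl⟩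
      have hinv : s⁻¹ = (κ : ℂ) * conj s := by
        rw [Complex.inv_def, Complex.normSq_eq_norm_sq, ← hm, mul_comm, hκ]
      have hre : e.re = 2 * h * (1 - c ^ 2) := by
        rw [he, hinv]
        have : (2 * (h : ℂ) - c * ((κ : ℂ) * conj s + s)).re = 2 * h - c * (κ * s.re + s.re) := by
          simp
        rw [this, ← hcm, hh, hκ]
        field_simp
        try ring
      have himm : e.im = -(c * (1 - (m ^ 2)⁻¹) * s.im) := by
        rw [he, hinv]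
        have : (2 * (h : ℂ) - c * ((κ : ℂ) * conj s + s)).im = - (c * (-(κ * s.im) + s.im)) := by
          simp
        rw [this, hκ]
        ring
      rw [← Complex.normSq_eq_norm_sq, Complex.normSq_apply, hre, himm]
      have e1 : -(c * (1 - (m ^ 2)⁻¹) * s.im) * -(c * (1 - (m ^ 2)⁻¹) * s.im) = c ^ 2 * (1 - (m ^ 2)⁻¹) ^ 2 * s.im ^ 2 := by
        ring
      rw [e1, him, hh]
      field_simp
      ring
    rw [hβ, norm_div, norm_mul, norm_mul, div_pow, mul_pow, mul_pow, hen, Complex.norm_real, Complex.norm_real,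
      Real.norm_of_nonneg hr1p.le, Real.norm_of_nonneg hr2p.le, hr1s, hr2s, ← hm, div_le_iff₀ (by positivity), ← hr2, him]
    have e2 : 2 * h * (α * r / (2 * h)) = α * r := by field_simp
    rw [e2, hα]
    have h3 : 0 ≤ m ^ 2 * (1 - c ^ 2) := by rw [← him]; positivity
    have h4 : r ≤ h := by nlinarith [sq_nonneg c]
    have h5 : 0 ≤ m ^ 2 * (1 - c ^ 2) * (r * (h - r)) := mul_nonneg h3 (mul_nonneg hr0.le (by linarith))
    nlinarith
  obtain ⟨p₁, p₂, hp, hpp⟩ := two_dim (ζ := -s ^ 2) (β := β) (S := S) (by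
    rw [norm_neg, norm_pow, ← hm]
    exact pow_le_one₀ hm0.le h1.le) hS (by
    have e1 : ‖-s ^ 2‖ ^ 2 = ‖s‖ ^ 4 := by
      rw [norm_neg, norm_pow]
      ring
    rw [e1]
    refine le_trans ?_ hS2
    refine mul_le_mul_of_nonneg_left ?_ (by linarith)
    linarith)
  refine ⟨h, c, r, hhs, hcs, hr0, hr2, hc1, hh1, p₁ * r1, p₂ * r2 - p₁ * r1 * (c / (2 * h) : ℝ), fun x y => ?_,
    fun x y => ?_⟩
  · have e : (p₁ * r1) * x + (p₂ * r2 - p₁ * r1 * (c / (2 * h) : ℝ)) * y =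
        p₁ * ((r1 : ℂ) * (x - (c / (2 * h) : ℝ) * y)) + p₂ * ((r2 : ℂ) * y) := by ring
    rw [← hα, hq2, hq2, hlet, e]
    have := hpp ((r1 : ℂ) * (x - (c / (2 * h) : ℝ) * y)) ((r2 : ℂ) * y)
    linarith
  · have e : (p₁ * r1) * x + (p₂ * r2 - p₁ * r1 * (c / (2 * h) : ℝ)) * y =
        p₁ * ((r1 : ℂ) * (x - (c / (2 * h) : ℝ) * y)) + p₂ * ((r2 : ℂ) * y) := by ring
    rw [← hα, hq2, e]
    exact cs2 hp _ _

end Pool.Agent.Helper12.GD
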