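import Pool.Agent.Helper57.PD.H3G
import Pool.Agent.Helper57.PD.Mids
import Pool.Agent.Helper30.EV3.Strand
import Pool.Agent.Helper29.GD.Scalar

/-!
# The energy of a slice of an arbitrary positive diagram (project S7)

`En`: the sum of the forms `qe` over the current edges of all labels.
`en_step`: change of the energy at a crossing. `en_lower`: lower bound of the energy by its part at
the next crossing, from the balance of the sides (which does not depend on the time).
-/

set_option autoImplicit false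

namespace Pool.Agent.Helper12.GD

open Complex ComplexConjugate Pool.Agent.Helper29.UD Pool.Agent.Helper29.GD Pool.Agent.Helper30.EV3
open Pool.Agent.Helper41.PD (Cut pr Corn)

section comb

variable {Λ F : Type*} [Fintype Λ] [Fintype F]

open Classical in
/-- the number of labels with the value `f` -/
noncomputable def cnt (g : Λ → F) (f : F) : ℝ := ((Finset.univ.filter fun x => g x = f).card : ℝ)

omit [Fintype F] in
theorem cnt_nonneg (g : Λ → F) (f : F) : 0 ≤ cnt g f := by
  unfold cnt
  positivity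

omit [Fintype F] in
theorem one_le_cnt {g : Λ → F} {f : F} {a : Λ} (h : g a = f) : 1 ≤ cnt g f := by
  classical
  unfold cnt
  have : 0 < (Finset.univ.filter fun x => g x = f).card :=
    Finset.card_pos.2 ⟨a, Finset.mem_filter.2 ⟨Finset.mem_univ _, h⟩⟩
  exact_mod_cast this

theorem sum_cnt (g : Λ → F) (ψ : F → ℝ) : ∑ x, ψ (g x) = ∑ f, cnt g f * ψ f := by
  classical
  rw [← Finset.sum_fiberwise (s := Finset.univ) g fun x => ψ (g x)]
  refine Finset.sum_congr rfl fun f _ => ?_
  rw [Finset.sum_congr rfl (g := fun _ => ψ f) fun x hx => by rw [(Finset.mem_filter.1 hx).2],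
    Finset.sum_const, nsmul_eq_mul]
  rfl

theorem sum_cnt_one (g : Λ → F) : ∑ f, cnt g f = Fintype.card Λ := by
  have h := sum_cnt g fun _ => 1
  simpa using h.symm

/-- the balance gives the lower bound -/
theorem comb_lower (l r : Λ → F) (κ : F → ℤ) (hκ : ∀ x, κ (l x) = κ (r x) + 1) (φ : F → ℝ)
    (hφ : ∀ f, 0 ≤ φ f) (Cf : F → Prop) (hbal : ∀ f, ¬ Cf f → cnt l f = cnt r f) {M : ℝ} (hM0 : 0 ≤ M)
    (hM : ∀ f, Cf f → φ f ≤ M) {a b : Λ} (hS : r a = l b) {ρ : ℝ} (hρ : 0 ≤ ρ) (q : Λ → ℝ)
    (h0 : ∀ x, 0 ≤ q x) (h1 : ∀ x, ρ * (φ (r x) - φ (l x)) ≤ q x) (h2 : ∀ x, ρ * (φ (l x) - φ (r x)) ≤ q x) :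
    q a + q b + ρ * (φ (l a) + φ (r b)) ≤ ∑ x, q x + 2 * Fintype.card Λ * ρ * M := by
  classical
  obtain ⟨i, hi⟩ : ∃ i, i = κ (r a) := ⟨_, rfl⟩
  have ha : κ (l a) = i + 1 := by rw [hκ, hi]
  have hb : κ (r b) = i - 1 := by
    have := hκ b
    rw [← hS, ← hi] at this
    omega
  have hab : a ≠ b := by
    rintro rfl
    omega
  -- the signs
  let sg : Λ → ℝ := fun x => if i + 1 ≤ κ (r x) then 1 else if κ (l x) ≤ i - 1 then -1 else 0
  let sr : F → ℝ := fun f => if i + 1 ≤ κ f then 1 else if κ f + 1 ≤ i - 1 then -1 else 0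
  let sl : F → ℝ := fun f => if i + 1 ≤ κ f - 1 then 1 else if κ f ≤ i - 1 then -1 else 0
  have hsr : ∀ x, sg x = sr (r x) := by
    intro x
    simp only [sg, sr]
    rw [hκ]
  have hsl : ∀ x, sg x = sl (l x) := by
    intro x
    simp only [sg, sl]
    rw [hκ]
    simp
  have hq : ∀ x, sg x * (ρ * (φ (r x) - φ (l x))) ≤ q x := by
    intro x
    simp only [sg]
    split_ifs
    · linarith [h1 x]
    · linarith [h2 x]
    · linarith [h0 x]
  have hsa : sg a = 0 := by
    simp only [sg]
    rw [if_neg (by omega), if_neg (by omega)]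
  have hsb : sg b = 0 := by
    simp only [sg]
    rw [if_neg (by omega), if_neg (by rw [← hS]; omega)]
  -- the sum over the labels
  have key1 : q a + q b ≤ ∑ x, (q x - sg x * (ρ * (φ (r x) - φ (l x)))) := by
    have e : q a + q b = ∑ x ∈ ({a, b} : Finset Λ), (q x - sg x * (ρ * (φ (r x) - φ (l x)))) := by
      rw [Finset.sum_pair hab, hsa, hsb]
      ring
    rw [e]
    exact Finset.sum_le_sum_of_subset_of_nonneg (Finset.subset_univ _) fun x _ _ => by linarith [hq x]
  rw [Finset.sum_sub_distrib] at key1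
  have e1 : ∑ x, sg x * (ρ * (φ (r x) - φ (l x))) =
      ρ * ∑ f, (cnt r f * sr f - cnt l f * sl f) * φ f := by
    have e2 : ∀ x, sg x * (ρ * (φ (r x) - φ (l x))) = ρ * (sr (r x) * φ (r x)) - ρ * (sl (l x) * φ (l x)) := by
      intro x
      rw [← hsr, ← hsl]
      ring
    rw [Finset.sum_congr rfl fun x _ => e2 x, Finset.sum_sub_distrib, ← Finset.mul_sum, ← Finset.mul_sum,
      ← mul_sub, sum_cnt r fun f => sr f * φ f, sum_cnt l fun f => sl f * φ f, ← Finset.sum_sub_distrib]
    congr 1
    refine Finset.sum_congr rfl fun f _ => ?_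
    ring
  rw [e1] at key1
  -- face by face
  have hface : ∀ f, ((if f = l a then 1 else 0) + (if f = r b then 1 else 0)) * φ f ≤
      (cnt r f * sr f - cnt l f * sl f) * φ f + (cnt l f + cnt r f) * (if Cf f then M else 0) := by
    intro f
    have hL := cnt_nonneg l f
    have hR := cnt_nonneg r f
    have hf := hφ f
    have hLa : f = l a → 1 ≤ cnt l f := fun h => one_le_cnt h.symm
    have hRb : f = r b → 1 ≤ cnt r f := fun h => one_le_cnt h.symm
    have hκa : f = l a → κ f = i + 1 := fun h => by rw [h, ha]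
    have hκb : f = r b → κ f = i - 1 := fun h => by rw [h, hb]
    by_cases hc : Cf f
    · rw [if_pos hc]
      have hm := hM f hc
      have h3 : (cnt l f + cnt r f) * φ f ≤ (cnt l f + cnt r f) * M := mul_le_mul_of_nonneg_left hm (by positivity)
      have h4 : ((if f = l a then (1 : ℝ) else 0) + (if f = r b then 1 else 0)) ≤
          cnt r f * sr f - cnt l f * sl f + (cnt l f + cnt r f) := by
        simp only [sr, sl]
        by_cases ea : f = l a
        · have k1 := hκa ea
          have k2 := hLa ea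
          have k3 : f ≠ r b := fun h => by
            have := hκb h
            omega
          rw [if_pos ea, if_neg k3, if_pos (by omega), if_neg (by omega), if_neg (by omega)]
          linarith
        · by_cases eb : f = r b
          · have k1 := hκb eb
            have k2 := hRb eb
            rw [if_neg ea, if_pos eb, if_neg (by omega), if_neg (by omega), if_neg (by omega), if_pos (by omega)]
            linarith
          · rw [if_neg ea, if_neg eb]
            split_ifs <;> linarith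
      have h5 := mul_le_mul_of_nonneg_right h4 hf
      nlinarith
    · rw [if_neg hc, mul_zero, add_zero]
      have hb' := hbal f hc
      refine mul_le_mul_of_nonneg_right ?_ hf
      simp only [sr, sl]
      by_cases ea : f = l a
      · have k1 := hκa ea
        have k2 := hLa ea
        have k3 : f ≠ r b := fun h => by
          have := hκb h
          omega
        rw [if_pos ea, if_neg k3, if_pos (by omega), if_neg (by omega), if_neg (by omega)]
        linarith
      · by_cases eb : f = r b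
        · have k1 := hκb eb
          have k2 := hRb eb
          rw [if_neg ea, if_pos eb, if_neg (by omega), if_neg (by omega), if_neg (by omega), if_pos (by omega)]
          linarith
        · rw [if_neg ea, if_neg eb, hb']
          split_ifs <;> first | omega | linarith
  have key2 := Finset.sum_le_sum fun f (_ : f ∈ Finset.univ) => hface f
  rw [Finset.sum_add_distrib] at key2
  have e3 : ∑ f, ((if f = l a then (1 : ℝ) else 0) + (if f = r b then 1 else 0)) * φ f = φ (l a) + φ (r b) := by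
    simp only [add_mul, Finset.sum_add_distrib, ite_mul, one_mul, zero_mul, Finset.sum_ite_eq', Finset.mem_univ, if_true]
  rw [e3] at key2
  have hM' : ∑ f, (cnt l f + cnt r f) * (if Cf f then M else 0) ≤ 2 * Fintype.card Λ * M := by
    have h3 : ∀ f, (cnt l f + cnt r f) * (if Cf f then M else 0) ≤ (cnt l f + cnt r f) * M := by
      intro f
      refine mul_le_mul_of_nonneg_left ?_ (add_nonneg (cnt_nonneg _ _) (cnt_nonneg _ _))
      split_ifs
      · exact le_rfl
      · exact hM0
    refine (Finset.sum_le_sum fun f _ => h3 f).trans (le_of_eq ?_)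
    rw [← Finset.sum_mul, Finset.sum_add_distrib, sum_cnt_one, sum_cnt_one]
    ring
  have h3 : φ (l a) + φ (r b) ≤ ∑ f, (cnt r f * sr f - cnt l f * sl f) * φ f + 2 * Fintype.card Λ * M := by
    linarith
  have h4 := mul_le_mul_of_nonneg_left h3 hρ
  rw [mul_add] at h4
  linarith

end comb

section cut

variable {P F : Type} [Fintype F] {nxt : Equiv.Perm P} {op : P → P} {C : Finset P} {τ : P → ℕ}
  (H : Cut nxt op C τ) {lf : P → Bool} {L R : P → F}

/-- the current edges after the crossings of `X` -/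
noncomputable def cur (X : List P) : {x // x ∈ C} → P := stt H (fun l => l.1) X

theorem cur_snoc (X : List P) (p : P) : cur H (X ++ [p]) = stp H (cur H X) p := by
  unfold cur
  rw [stt_append]
  rfl

/-- a sum over the current edges changes only at the two labels of the crossing -/
theorem sum_stp (Φ : P → ℝ) {c : {x // x ∈ C} → P} {p : P} (hne : H.lab p ≠ H.lab (op p)) :
    ∑ x, Φ (stp H c p x) = ∑ x, Φ (c x) - Φ (c (lb H p)) - Φ (c (lb H (op p))) + Φ p + Φ (op p) := by
  classical
  have hab : lb H p ≠ lb H (op p) := fun h => hne (lb_inj.1 h)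
  have e1 : ∀ g : {x // x ∈ C} → ℝ, ∑ x, g x = g (lb H p) + g (lb H (op p)) +
      ∑ x ∈ (Finset.univ.erase (lb H p)).erase (lb H (op p)), g x := by
    intro g
    rw [← Finset.add_sum_erase _ _ (Finset.mem_univ (lb H p)),
      ← Finset.add_sum_erase _ _ (Finset.mem_erase.2 ⟨hab.symm, Finset.mem_univ (lb H (op p))⟩)]
    ring
  rw [e1 fun x => Φ (stp H c p x), e1 fun x => Φ (c x), stp_left, stp_right hne]
  have e2 : ∑ x ∈ (Finset.univ.erase (lb H p)).erase (lb H (op p)), Φ (stp H c p x) =
      ∑ x ∈ (Finset.univ.erase (lb H p)).erase (lb H (op p)), Φ (c x) := by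
    refine Finset.sum_congr rfl fun x hx => ?_
    rw [Finset.mem_erase, Finset.mem_erase] at hx
    rw [stp_of_ne hx.2.1 hx.1]
  rw [e2]
  ring

/-- the data of a sorted list of crossings -/
structure Srt (lf : P → Bool) (L R : P → F) (κ : F → ℤ) (X : List P) : Prop where
  corn : Corn nxt op lf L R
  hκ : ∀ e, κ (L e) = κ (R e) + 1
  lfX : ∀ p ∈ X, lf p = true
  ord : Ord H X
  all : ∀ e, e ∈ X ∨ op e ∈ X
  ne : ∀ p, H.lab p ≠ H.lab (op p)

variable {H} {κ : F → ℤ} {X : List P}

omit [Fintype F] in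
theorem Srt.at (hX : Srt H lf L R κ X) {pre suf : List P} {p : P} (e : X = pre ++ p :: suf) :
    cur H pre (lb H p) = pr nxt op p ∧ cur H pre (lb H (op p)) = pr nxt op (op p) := by
  subst e
  exact cur_at hX.ord hX.all fun p' _ => hX.ne p'

/-- the energy of a slice -/
noncomputable def En (H : Cut nxt op C τ) (L R : P → F) (h c : ℝ) (v : F → ℂ) (X : List P) : ℝ :=
  ∑ x, qe h c (v (L (cur H X x))) (v (R (cur H X x)))

theorem qe_pair (h c : ℝ) (W S E : ℂ) : qe h c W S + qe h c S E =
    h * ‖W‖ ^ 2 + h * ‖E‖ ^ 2 + (2 * h * ‖S‖ ^ 2 - 2 * c * (conj S * (W + E)).re) := by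
  unfold qe
  have e : (conj W * S).re = (conj S * W).re := by
    rw [← Complex.conj_re]
    congr 1
    rw [map_mul, Complex.conj_conj, mul_comm]
  rw [e, mul_add, Complex.add_re]
  ring

omit [Fintype F] in
/-- **(S1)** -/
theorem Srt.en_step (hX : Srt H lf L R κ X) {pre suf : List P} {p : P} (e : X = pre ++ p :: suf) (h c : ℝ)
    (v : F → ℂ) :
    En H L R h c v (pre ++ [p]) = En H L R h c v pre +
      (2 * h * ‖v (R p)‖ ^ 2 - 2 * c * (conj (v (R p)) * (v (L p) + v (R (op p)))).re) -
      (2 * h * ‖v (L (nxt.symm p))‖ ^ 2 - 2 * c * (conj (v (L (nxt.symm p))) * (v (L p) + v (R (op p)))).re) := by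
  have hp : lf p = true := hX.lfX p (by rw [e]; simp)
  obtain ⟨b1, b2⟩ := hX.at e
  unfold En
  rw [cur_snoc, sum_stp H (fun e => qe h c (v (L e)) (v (R e))) (hX.ne p), b1, b2, ← hX.corn.W p hp, ← hX.corn.E p hp,
    hX.corn.S p hp, ← hX.corn.N p hp]
  have e1 : L (pr nxt op (op p)) = L (nxt.symm p) := by
    unfold pr
    rw [H.op_op]
  rw [e1]
  have q1 := qe_pair h c (v (L p)) (v (L (nxt.symm p))) (v (R (op p)))
  have q2 := qe_pair h c (v (L p)) (v (R p)) (v (R (op p)))
  linarith

omit [Fintype F] in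
/-- the balance does not depend on the time -/
theorem Srt.bal (hX : Srt H lf L R κ X) (ψ : F → ℝ) {pre suf : List P} (e : X = pre ++ suf) :
    ∑ x, ψ (L (cur H pre x)) - ∑ x, ψ (R (cur H pre x)) = ∑ x : {x // x ∈ C}, ψ (L x.1) - ∑ x : {x // x ∈ C}, ψ (R x.1) := by
  induction pre using List.reverseRecOn generalizing suf with
  | nil => rfl
  | append_singleton pre p ih =>
    have e' : X = pre ++ p :: suf := by rw [e]; simp
    have hp : lf p = true := hX.lfX p (by rw [e']; simp)
    obtain ⟨b1, b2⟩ := hX.at e'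
    rw [cur_snoc, sum_stp H (fun e => ψ (L e)) (hX.ne p), sum_stp H (fun e => ψ (R e)) (hX.ne p), b1, b2,
      ← hX.corn.W p hp, ← hX.corn.E p hp, hX.corn.S p hp, ← hX.corn.N p hp, ← ih e']
    ring

theorem Srt.bal_cnt (hX : Srt H lf L R κ X) {pre suf : List P} (e : X = pre ++ suf) {f : F}
    (hf : ¬ ∃ e ∈ C, L e = f ∨ R e = f) :
    cnt (fun x => L (cur H pre x)) f = cnt (fun x => R (cur H pre x)) f := by
  classical
  have h1 := hX.bal (fun g => if g = f then 1 else 0) e
  rw [sum_cnt (fun x => L (cur H pre x)) (fun g => if g = f then 1 else 0),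
    sum_cnt (fun x => R (cur H pre x)) (fun g => if g = f then 1 else 0)] at h1
  have e2 : ∀ x : {x // x ∈ C}, (if L x.1 = f then (1 : ℝ) else 0) = 0 ∧ (if R x.1 = f then (1 : ℝ) else 0) = 0 := by
    intro x
    exact ⟨if_neg fun h => hf ⟨x.1, x.2, Or.inl h⟩, if_neg fun h => hf ⟨x.1, x.2, Or.inr h⟩⟩
  rw [Finset.sum_congr rfl fun x _ => (e2 x).1, Finset.sum_congr rfl fun x _ => (e2 x).2] at h1
  simp only [mul_ite, mul_one, mul_zero, Finset.sum_ite_eq', Finset.mem_univ, if_true, Finset.sum_const_zero,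
    sub_zero] at h1
  linarith

/-- **(S2)** -/
theorem Srt.en_lower (hX : Srt H lf L R κ X) {pre suf : List P} {p : P} (e : X = pre ++ p :: suf) {h c r : ℝ}
    (hr0 : 0 < r) (hr2 : r ^ 2 = h ^ 2 - c ^ 2) (hh : 0 < h) (v : F → ℂ) {M : ℝ}
    (hM : ∀ e ∈ C, ‖v (L e)‖ ^ 2 ≤ M ∧ ‖v (R e)‖ ^ 2 ≤ M) :
    2 * h * ‖v (L (nxt.symm p))‖ ^ 2 - 2 * c * (conj (v (L (nxt.symm p))) * (v (L p) + v (R (op p)))).re +
      (h + r) * (‖v (L p)‖ ^ 2 + ‖v (R (op p))‖ ^ 2) ≤ En H L R h c v pre + 2 * C.card * r * M := by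
  have hp : lf p = true := hX.lfX p (by rw [e]; simp)
  obtain ⟨b1, b2⟩ := hX.at e
  have hM0 : 0 ≤ M := (by positivity : (0 : ℝ) ≤ ‖v (L (lb H p).1)‖ ^ 2).trans (hM _ (lb H p).2).1
  have e1 : L (pr nxt op (op p)) = L (nxt.symm p) := by
    unfold pr
    rw [H.op_op]
  have key := comb_lower (fun x => L (cur H pre x)) (fun x => R (cur H pre x)) κ (fun x => hX.hκ _)
    (fun f => ‖v f‖ ^ 2) (fun f => by positivity) (fun f => ∃ e ∈ C, L e = f ∨ R e = f)
    (fun f hf => hX.bal_cnt (suf := p :: suf) e hf) hM0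
    (fun f hf => by
      obtain ⟨e, he, h1 | h1⟩ := hf
      · rw [← h1]
        exact (hM e he).1
      · rw [← h1]
        exact (hM e he).2) (a := lb H p) (b := lb H (op p))
    (by rw [b1, b2]; exact hX.corn.S p hp) hr0.le
    (fun x => qe h c (v (L (cur H pre x))) (v (R (cur H pre x))))
    (fun x => qe_nonneg hr0 hr2 hh _ _) (fun x => (qe_ge hr0 hr2 hh _ _).2) (fun x => (qe_ge hr0 hr2 hh _ _).1)
  simp only [b1, b2] at key
  rw [← hX.corn.W p hp, ← hX.corn.E p hp, hX.corn.S p hp, e1, qe_pair, Fintype.card_coe] at key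
  have e3 : En H L R h c v pre = ∑ x, qe h c (v (L (cur H pre x))) (v (R (cur H pre x))) := rfl
  rw [e3]
  linarith

omit [Fintype F] in
/-- at the start all current edges are in the cut -/
theorem cur_nil (x : {x // x ∈ C}) : cur H [] x = x.1 := rfl

end cut

section shadow

open Pool.Agent.Helper85.Exp Pool.Agent.Helper60.EV2 Pool.Agent.Helper2.PD Pool.Agent.Helper16.PD
  Pool.Agent.Helper27.EV2 Pool.Agent.Helper57.PD
open Pool.Agent.Helper41.PD (spc)

variable {P : Type} [Fintype P] {G : Sh P}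

/-- **(S3)** the cut, the sorted list of the crossings and a cut edge -/
theorem exists_srt {s : ℕ} (h : Good s G) (hne : Nonempty P) {κ : Face G → ℤ}
    (hκ : ∀ i, κ (Lf G i) = κ (Rf G i) + 1) :
    ∃ (C : Finset P) (τ : P → ℕ) (H : Cut G.nxt G.op C τ) (X : List P) (x0 : P),
      C.card ≤ s * s * s ∧ (spc G C).card ≤ 8 * s + 4 * (s * s * s) ∧ x0 ∈ C ∧ X.Nodup ∧
      (∀ p, p ∈ X ↔ G.lf p = true) ∧ X.length = Nat.card (Cr G) ∧ (X.Pairwise fun a b => τ a < τ b) ∧
      Srt H G.lf (Lf G) (Rf G) κ X := by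
  obtain ⟨C, τ, H, Bs, x0, h1, h2, -, h4, h5⟩ := exists_data h hne
  have hlf : ∀ p, G.lf (G.op p) = !G.lf p := fun p => G.lf_op p (h.ho p)
  refine ⟨C, τ, H, crl Bs, x0, h1, h2, h5, ?_, h4.all, crs_length h4, h4.srt, corn_of h.ho, hκ,
    fun p hp => (h4.all p).1 hp, h4.ord, fun e => ?_, fun p => lab_ne h.ho hκ H p⟩
  · refine List.Pairwise.imp ?_ h4.srt
    rintro a b hab rfl
    exact lt_irrefl _ hab
  · by_cases he : G.lf e = true
    · exact Or.inl ((h4.all e).2 he)
    · refine Or.inr ((h4.all _).2 ?_)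
      rw [hlf]
      simpa using he

end shadow

end Pool.Agent.Helper12.GD
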