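import Mathlib

/-!
# Two legs give a sector (project S7, any positive diagram)

`deform`: a family of holomorphic functions without zeros on the frontier, the first member
without zeros, has no zeros (maximum principle for the inverse).
`two_leg`: `F(ζ, κ)` without zeros for `κ` real, `|ζ| < 1`, and for `ζ` in `[0, 1)`, `κ` near the
real axis, has no zero at `(-s², s / (1 + s²))` for `s` near the positive real axis.
-/

set_option autoImplicit false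

namespace Pool.Agent.Helper12.GD

open Set Filter Topology Complex

theorem deform {U : Set ℂ} (hU : Bornology.IsBounded U) {g : ℝ → ℂ → ℂ}
    (hc : ContinuousOn (fun p : ℝ × ℂ => g p.1 p.2) (Icc 0 1 ×ˢ closure U))
    (hd : ∀ b ∈ Icc (0 : ℝ) 1, DifferentiableOn ℂ (g b) U)
    (hfr : ∀ b ∈ Icc (0 : ℝ) 1, ∀ x ∈ frontier U, g b x ≠ 0)
    (h0 : ∀ x ∈ closure U, g 0 x ≠ 0) : ∀ b ∈ Icc (0 : ℝ) 1, ∀ x ∈ closure U, g b x ≠ 0 := by
  have hcU : IsCompact (closure U) := hU.isCompact_closure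
  have hfU : IsCompact (frontier U) := hcU.of_isClosed_subset isClosed_frontier frontier_subset_closure
  have hK : IsCompact (Icc (0 : ℝ) 1 ×ˢ frontier U) := isCompact_Icc.prod hfU
  have hcK : ContinuousOn (fun p : ℝ × ℂ => ‖g p.1 p.2‖) (Icc (0 : ℝ) 1 ×ˢ frontier U) :=
    (hc.mono (prod_mono le_rfl frontier_subset_closure)).norm
  obtain ⟨c, hc0, hcle⟩ : ∃ c : ℝ, 0 < c ∧ ∀ p ∈ Icc (0 : ℝ) 1 ×ˢ frontier U, c ≤ ‖g p.1 p.2‖ := by
    rcases (Icc (0 : ℝ) 1 ×ˢ frontier U).eq_empty_or_nonempty with he | hne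
    · exact ⟨1, one_pos, fun p hp => by rw [he] at hp; exact absurd hp (notMem_empty p)⟩
    · obtain ⟨q, hq, hmin⟩ := hK.exists_isMinOn hne hcK
      exact ⟨‖g q.1 q.2‖, norm_pos_iff.2 (hfr q.1 hq.1 q.2 hq.2), fun p hp => hmin hp⟩
  have hcx : ∀ b ∈ Icc (0 : ℝ) 1, ContinuousOn (g b) (closure U) := by
    intro b hb
    exact hc.comp (f := fun x : ℂ => (b, x)) (by fun_prop) fun x hx => ⟨hb, hx⟩
  have mp : ∀ b ∈ Icc (0 : ℝ) 1, (∀ x ∈ closure U, g b x ≠ 0) → ∀ x ∈ closure U, c ≤ ‖g b x‖ := by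
    intro b hb hne x hx
    have h1 : DiffContOnCl ℂ (fun x => (g b x)⁻¹) U :=
      ⟨(hd b hb).inv fun x hx => hne x (subset_closure hx), (hcx b hb).inv₀ hne⟩
    have h2 := Complex.norm_le_of_forall_mem_frontier_norm_le hU h1 (C := c⁻¹) (fun z hz => by
      rw [norm_inv]
      exact inv_anti₀ hc0 (hcle (b, z) ⟨hb, hz⟩)) hx
    rw [norm_inv] at h2
    exact (inv_le_inv₀ (norm_pos_iff.2 (hne x hx)) hc0).1 h2
  have key : Icc (0 : ℝ) 1 ⊆ {b : ℝ | ∀ x ∈ closure U, c ≤ ‖g b x‖} := by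
    apply IsClosed.Icc_subset_of_forall_mem_nhdsWithin
    · have e : {b : ℝ | ∀ x ∈ closure U, c ≤ ‖g b x‖} ∩ Icc (0 : ℝ) 1 =
          Icc (0 : ℝ) 1 ∩ ⋂ x ∈ closure U, (Icc (0 : ℝ) 1 ∩ (fun b => ‖g b x‖) ⁻¹' Ici c) := by
        ext b
        simp only [mem_inter_iff, mem_ofPred_eq, mem_iInter, mem_preimage, mem_Ici]
        constructor
        · rintro ⟨h1, h2⟩
          exact ⟨h2, fun x hx => ⟨h2, h1 x hx⟩⟩
        · rintro ⟨h1, h2⟩
          exact ⟨fun x hx => (h2 x hx).2, h1⟩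
      rw [e]
      refine isClosed_Icc.inter (isClosed_biInter fun x hx => ?_)
      refine ContinuousOn.preimage_isClosed_of_isClosed ?_ isClosed_Icc isClosed_Ici
      exact (hc.comp (f := fun b : ℝ => (b, x)) (by fun_prop) fun b hb => ⟨hb, hx⟩).norm
    · exact mp 0 (by simp) h0
    · rintro b ⟨hb1, hb2⟩
      have hbI : b ∈ Icc (0 : ℝ) 1 := ⟨hb2.1, hb2.2.le⟩
      have hev : ∀ᶠ b' in 𝓝 b, ∀ x ∈ closure U,
          (b' ∈ Icc (0 : ℝ) 1 → x ∈ closure U → g b' x ≠ 0) := by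
        apply hcU.eventually_forall_of_forall_eventually
        intro y hy
        have h1 : ContinuousWithinAt (fun p : ℝ × ℂ => g p.1 p.2) (Icc 0 1 ×ˢ closure U) (b, y) :=
          hc (b, y) ⟨hbI, hy⟩
        have h2 : g b y ≠ 0 := norm_pos_iff.1 (lt_of_lt_of_le hc0 (hb1 y hy))
        have h3 := h1.eventually_ne h2
        rw [eventually_nhdsWithin_iff] at h3
        filter_upwards [h3] with z hz h4 h5
        exact hz ⟨h4, h5⟩
      have h4 : ∀ᶠ b' in 𝓝[>] b, b' ∈ Icc (0 : ℝ) 1 := by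
        have : Ioo b 1 ∈ 𝓝[>] b := Ioo_mem_nhdsGT hb2.2
        filter_upwards [this] with b' hb'
        exact ⟨hb2.1.trans hb'.1.le, hb'.2.le⟩
      filter_upwards [nhdsWithin_le_nhds hev, h4] with b' h5 h6
      exact mp b' h6 fun x hx => h5 x hx h6 hx
  intro b hb x hx
  exact norm_pos_iff.1 (lt_of_lt_of_le hc0 (key hb x hx))

/-- the half disc -/
def H : Set ℂ := {x | 0 < x.re ∧ ‖x‖ < 1}

theorem H_bounded : Bornology.IsBounded H :=
  (Metric.isBounded_ball (x := (0 : ℂ)) (r := 1)).subset fun x hx => by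
    rw [Metric.mem_ball, dist_zero_right]
    exact hx.2

theorem H_open : IsOpen H :=
  (isOpen_lt continuous_const continuous_re).inter (isOpen_lt continuous_norm continuous_const)

theorem closure_H {x : ℂ} (hx : x ∈ closure H) : 0 ≤ x.re ∧ ‖x‖ ≤ 1 := by
  have h : closure H ⊆ {x : ℂ | 0 ≤ x.re} ∩ {x | ‖x‖ ≤ 1} :=
    closure_minimal (fun y hy => ⟨hy.1.le, hy.2.le⟩)
      ((isClosed_le continuous_const continuous_re).inter
        (isClosed_le continuous_norm continuous_const))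
  exact h hx

theorem frontier_H {x : ℂ} (hx : x ∈ frontier H) :
    0 ≤ x.re ∧ ‖x‖ ≤ 1 ∧ (x.re = 0 ∨ ‖x‖ = 1) := by
  have h1 := closure_H (frontier_subset_closure hx)
  refine ⟨h1.1, h1.2, ?_⟩
  by_contra h
  push Not at h
  have h2 : x ∈ H := ⟨lt_of_le_of_ne h1.1 h.1.symm, lt_of_le_of_ne h1.2 h.2⟩
  rw [H_open.frontier_eq] at hx
  exact hx.2 h2

theorem one_add_ne {x : ℂ} (hx : 0 ≤ x.re) : 1 + x ≠ 0 := by
  intro h
  have := congrArg Complex.re h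
  simp at this
  linarith

theorem moeb_le {x : ℂ} (hx : 0 ≤ x.re) : ‖(1 - x) / (1 + x)‖ ≤ 1 := by
  rw [norm_div, div_le_one (norm_pos_iff.2 (one_add_ne hx)), ← sq_le_sq₀ (norm_nonneg _) (norm_nonneg _),
    Complex.sq_norm, Complex.sq_norm, normSq_apply, normSq_apply]
  simp
  nlinarith

theorem moeb_circle {x : ℂ} (hx : 0 ≤ x.re) (h1 : ‖x‖ = 1) :
    (1 - x) / (1 + x) = ((-(x.im / (1 + x.re)) : ℝ) : ℂ) * I := by
  have h2 : x.re * x.re + x.im * x.im = 1 := by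
    rw [← normSq_apply, ← Complex.sq_norm, h1, one_pow]
  have h3 : (1 + x.re) ≠ 0 := by positivity
  obtain ⟨q, hq⟩ : ∃ q : ℝ, x.im / (1 + x.re) = q := ⟨_, rfl⟩
  have hq' : x.im = q * (1 + x.re) := (div_eq_iff h3).1 hq
  rw [div_eq_iff (one_add_ne hx), hq]
  have h4 : 1 - x.re = q * x.im := by
    have e : (1 - x.re) * (1 + x.re) = q * x.im * (1 + x.re) := by
      rw [hq'] at h2 ⊢
      linear_combination -h2
    exact mul_right_cancel₀ h3 e
  apply Complex.ext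
  · simp
    linarith
  · simp
    linarith

theorem half_disc {F : ℂ → ℂ → ℂ} (hF : Differentiable ℂ fun p : ℂ × ℂ => F p.1 p.2) {K1 c0 : ℝ}
    (L1 : ∀ (ζ : ℂ) (κ : ℝ), ‖ζ‖ < 1 → 0 < κ → κ < K1 → F ζ κ ≠ 0)
    (L2 : ∀ (t : ℝ) (κ : ℂ), 0 ≤ t → t < 1 → 0 < κ.re → κ.re < K1 → |κ.im| ≤ c0 * κ.re →
      F t κ ≠ 0)
    {r a b : ℝ} (hr0 : 0 ≤ r) (hr : r < 1) (hc0 : 0 ≤ c0) (h0 : 0 < a - |b|) (h1 : a + |b| < K1)
    (h2 : |b| ≤ c0 * (a - |b|)) {x : ℂ} (hx : x ∈ H) :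
    F (-(r * ((1 - x) / (1 + x))) ^ 2) (a - I * b * x) ≠ 0 := by
  have hb0 := abs_nonneg b
  have key := deform H_bounded
    (g := fun τ x => F (-(r * ((1 - x) / (1 + x))) ^ 2) (a - I * (τ * b : ℝ) * x)) ?_ ?_ ?_ ?_ 1
    (by simp) x (subset_closure hx)
  · simpa using key
  · refine hF.continuous.comp_continuousOn (f := fun p : ℝ × ℂ =>
      (-(r * ((1 - p.2) / (1 + p.2))) ^ 2, (a : ℂ) - I * (p.1 * b : ℝ) * p.2)) ?_
    refine ContinuousOn.prodMk ?_ (by fun_prop)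
    refine ContinuousOn.neg (ContinuousOn.pow (continuousOn_const.mul
      (ContinuousOn.div (by fun_prop) (by fun_prop) ?_)) 2)
    intro p hp
    exact one_add_ne (closure_H hp.2).1
  · intro τ _
    refine hF.comp_differentiableOn (f := fun x : ℂ =>
      (-(r * ((1 - x) / (1 + x))) ^ 2, (a : ℂ) - I * (τ * b : ℝ) * x)) ?_
    refine DifferentiableOn.prodMk ?_ (by fun_prop)
    refine DifferentiableOn.neg (DifferentiableOn.pow ((differentiableOn_const _).mul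
      (DifferentiableOn.div (by fun_prop) (by fun_prop) ?_)) 2)
    intro y hy
    exact one_add_ne hy.1.le
  · intro τ hτ y hy
    obtain ⟨hy1, hy2, hy3⟩ := frontier_H hy
    have hτb : |τ * b| ≤ |b| := by
      rw [abs_mul, abs_of_nonneg hτ.1]
      exact mul_le_of_le_one_left hb0 hτ.2
    have him : |y.im| ≤ 1 := (abs_im_le_norm y).trans hy2
    have hre : |y.re| ≤ 1 := (abs_re_le_norm y).trans hy2
    have hp1 : |τ * b * y.im| ≤ |b| := by
      rw [abs_mul]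
      calc |τ * b| * |y.im| ≤ |b| * 1 := mul_le_mul hτb him (abs_nonneg _) hb0
        _ = |b| := mul_one _
    have hp2 : |τ * b * y.re| ≤ |b| := by
      rw [abs_mul]
      calc |τ * b| * |y.re| ≤ |b| * 1 := mul_le_mul hτb hre (abs_nonneg _) hb0
        _ = |b| := mul_one _
    have hp1' := abs_le.1 hp1
    rcases hy3 with h3 | h3
    · have e : ((a : ℂ) - I * (τ * b : ℝ) * y) = ((a + τ * b * y.im : ℝ) : ℂ) := by
        apply Complex.ext
        · simp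
        · simp [h3]
      show F (-(r * ((1 - y) / (1 + y))) ^ 2) ((a : ℂ) - I * (τ * b : ℝ) * y) ≠ 0
      rw [e]
      refine L1 _ _ ?_ (by linarith) (by linarith)
      rw [norm_neg, norm_pow, norm_mul, Complex.norm_real, Real.norm_of_nonneg hr0]
      have h4 := moeb_le hy1
      have h5 : r * ‖(1 - y) / (1 + y)‖ ≤ r := mul_le_of_le_one_right hr0 h4
      have h6 : 0 ≤ r * ‖(1 - y) / (1 + y)‖ := mul_nonneg hr0 (norm_nonneg _)
      nlinarith
    · have hpos : 0 < 1 + y.re := by linarith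
      have e : -((r : ℂ) * ((1 - y) / (1 + y))) ^ 2 = (((r * (y.im / (1 + y.re))) ^ 2 : ℝ) : ℂ) := by
        rw [moeb_circle hy1 h3]
        push_cast
        rw [mul_pow, mul_pow, I_sq]
        ring
      show F (-(r * ((1 - y) / (1 + y))) ^ 2) ((a : ℂ) - I * (τ * b : ℝ) * y) ≠ 0
      rw [e]
      have h5 : |y.im / (1 + y.re)| ≤ 1 := by
        rw [abs_div, abs_of_pos hpos, div_le_one hpos]
        linarith
      have h6 : |r * (y.im / (1 + y.re))| < 1 := by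
        rw [abs_mul, abs_of_nonneg hr0]
        exact lt_of_le_of_lt (mul_le_of_le_one_right hr0 h5) hr
      refine L2 _ _ (sq_nonneg _) ?_ ?_ ?_ ?_
      · rw [← sq_abs]
        have := abs_nonneg (r * (y.im / (1 + y.re)))
        nlinarith
      · simp
        linarith
      · simp
        linarith
      · have e1 : ((a : ℂ) - I * (τ * b : ℝ) * y).im = -(τ * b * y.re) := by simp
        have e2 : ((a : ℂ) - I * (τ * b : ℝ) * y).re = a + τ * b * y.im := by simp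
        rw [e1, e2, abs_neg]
        have : c0 * (a - |b|) ≤ c0 * (a + τ * b * y.im) :=
          mul_le_mul_of_nonneg_left (by linarith) hc0
        linarith
  · intro y hy
    have h3 := closure_H hy
    have e : ((a : ℂ) - I * ((0 : ℝ) * b : ℝ) * y) = ((a : ℝ) : ℂ) := by simp
    show F (-(r * ((1 - y) / (1 + y))) ^ 2) ((a : ℂ) - I * ((0 : ℝ) * b : ℝ) * y) ≠ 0
    rw [e]
    refine L1 _ _ ?_ (by linarith) (by linarith)
    rw [norm_neg, norm_pow, norm_mul, Complex.norm_real, Real.norm_of_nonneg hr0]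
    have h4 := moeb_le h3.1
    have h5 : r * ‖(1 - y) / (1 + y)‖ ≤ r := mul_le_of_le_one_right hr0 h4
    have h6 : 0 ≤ r * ‖(1 - y) / (1 + y)‖ := mul_nonneg hr0 (norm_nonneg _)
    nlinarith

/-- the inequalities at the end -/
theorem num_iii {u v q R c0 σ : ℝ} (hu : 0 < u) (hq : u ^ 2 + v ^ 2 = q ^ 2) (hq0 : 0 < q)
    (hR : R = 1 + q ^ 2) (hc0 : 0 < c0) (hσ0 : 0 ≤ σ) (hσ : σ * (4 * (1 + c0)) ≤ c0)
    (hv : |v| ≤ σ * q) :
    |v| * (R + 2 * u) < c0 * (u * R - 2 * v ^ 2 - |v| * (R + 2 * u)) := by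
  have hσ1 : σ ≤ 1 / 4 := by nlinarith
  have hR2 : 2 * q ≤ R := by nlinarith [sq_nonneg (q - 1)]
  have hR0 : 0 < R := by nlinarith
  have hv2 : v ^ 2 ≤ σ ^ 2 * q ^ 2 := by
    rw [← sq_abs, ← mul_pow]
    exact pow_le_pow_left₀ (abs_nonneg _) hv 2
  have hσ2 : σ ^ 2 ≤ 1 / 16 := by nlinarith
  have hu1 : 15 / 16 * q ≤ u := by
    have h1 : (15 / 16 * q) ^ 2 ≤ u ^ 2 := by
      nlinarith [sq_nonneg q, mul_le_mul_of_nonneg_right hσ2 (sq_nonneg q)]
    exact le_of_sq_le_sq h1 hu.le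
  have huq : u ≤ q := by
    have h1 : u ^ 2 ≤ q ^ 2 := by nlinarith [sq_nonneg v]
    exact le_of_sq_le_sq h1 hq0.le
  have hN : |v| * (R + 2 * u) ≤ 2 * σ * (q * R) := by
    calc |v| * (R + 2 * u) ≤ σ * q * (2 * R) :=
          mul_le_mul hv (by linarith) (by positivity) (by positivity)
      _ = 2 * σ * (q * R) := by ring
  have hqR : 0 < q * R := by positivity
  have h2 : 7 / 8 * (q * R) ≤ u * R - 2 * v ^ 2 := by
    have e1 : 15 / 16 * (q * R) ≤ u * R := by nlinarith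
    have e2 : 2 * v ^ 2 ≤ 1 / 16 * (q * R) := by nlinarith [mul_le_mul_of_nonneg_right hσ2 (sq_nonneg q)]
    linarith
  have h3 : (1 + c0) * (|v| * (R + 2 * u)) ≤ c0 / 2 * (q * R) := by
    calc (1 + c0) * (|v| * (R + 2 * u)) ≤ (1 + c0) * (2 * σ * (q * R)) :=
          mul_le_mul_of_nonneg_left hN (by linarith)
      _ = (σ * (4 * (1 + c0))) / 2 * (q * R) := by ring
      _ ≤ c0 / 2 * (q * R) := mul_le_mul_of_nonneg_right (by linarith) hqR.le
  have h4 : c0 / 2 * (q * R) < c0 * (u * R - 2 * v ^ 2) := by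
    calc c0 / 2 * (q * R) < c0 * (7 / 8 * (q * R)) := by nlinarith [mul_pos hc0 hqR]
      _ ≤ _ := mul_le_mul_of_nonneg_left h2 hc0.le
  linarith

theorem num_ii {u v q R k1 σ : ℝ} (hu : 0 < u) (hq : u ^ 2 + v ^ 2 = q ^ 2) (hq0 : 0 < q)
    (hR : R = 1 + q ^ 2) (hσ0 : 0 ≤ σ) (hσ1 : σ ≤ 1 / 4) (hk0 : 0 < k1) (hk1 : k1 ≤ 1 / 2)
    (hσk : 2 * σ ≤ k1) (hv : |v| ≤ σ * q) :
    u * R - 2 * v ^ 2 + |v| * (R + 2 * u) < (1 / 2 + k1) * (R ^ 2 - 4 * v ^ 2) := by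
  have hR2 : 2 * q ≤ R := by nlinarith [sq_nonneg (q - 1)]
  have hR0 : 0 < R := by nlinarith
  have hv2 : v ^ 2 ≤ σ ^ 2 * q ^ 2 := by
    rw [← sq_abs, ← mul_pow]
    exact pow_le_pow_left₀ (abs_nonneg _) hv 2
  have huq : u ≤ q := by
    have h1 : u ^ 2 ≤ q ^ 2 := by nlinarith [sq_nonneg v]
    exact le_of_sq_le_sq h1 hq0.le
  have hRR : 0 < R ^ 2 := by positivity
  have hN : |v| * (R + 2 * u) ≤ σ * R ^ 2 := by
    calc |v| * (R + 2 * u) ≤ σ * q * (2 * R) :=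
          mul_le_mul hv (by linarith) (by positivity) (by positivity)
      _ = σ * ((2 * q) * R) := by ring
      _ ≤ σ * (R * R) := mul_le_mul_of_nonneg_left (mul_le_mul_of_nonneg_right hR2 hR0.le) hσ0
      _ = σ * R ^ 2 := by ring
  have h1 : u * R ≤ 1 / 2 * R ^ 2 := by nlinarith
  have hq2 : 4 * q ^ 2 ≤ R ^ 2 := by nlinarith
  have h2 : 4 * v ^ 2 ≤ σ ^ 2 * R ^ 2 := by nlinarith [mul_le_mul_of_nonneg_left hq2 (sq_nonneg σ)]
  have h3 : (1 - σ ^ 2) * R ^ 2 ≤ R ^ 2 - 4 * v ^ 2 := by linarith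
  have h4 : (1 / 2 + k1) * ((1 - σ ^ 2) * R ^ 2) ≤ (1 / 2 + k1) * (R ^ 2 - 4 * v ^ 2) :=
    mul_le_mul_of_nonneg_left h3 (by linarith)
  have h5 : 1 / 2 + σ < (1 / 2 + k1) * (1 - σ ^ 2) := by nlinarith
  have h6 : (1 / 2 + σ) * R ^ 2 < (1 / 2 + k1) * (1 - σ ^ 2) * R ^ 2 :=
    mul_lt_mul_of_pos_right h5 hRR
  nlinarith [sq_nonneg v]

/-- **Two legs.** If `F` has no zero for `κ` real in `(0, 1/2 + k1)`, `|ζ| < 1`, and none for
`ζ ∈ [0, 1)`, `κ` in the thin sector `|Im κ| ≤ c0 Re κ`, `Re κ < 1/2 + k1`, then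
`F(-s², s/(1+s²)) ≠ 0` for all `s` with `|s| < 1`, `Re s > 0`, `|Im s| ≤ σ |s|`, where
`σ ≤ c0 / (4 (1 + c0))` and `σ ≤ k1 / 2`. -/
theorem two_leg {F : ℂ → ℂ → ℂ} (hF : Differentiable ℂ fun p : ℂ × ℂ => F p.1 p.2)
    {k1 c0 σ : ℝ} (hc0 : 0 < c0) (hk0 : 0 < k1) (hk1 : k1 ≤ 1 / 2) (hσ0 : 0 ≤ σ)
    (hσ : σ * (4 * (1 + c0)) ≤ c0) (hσk : 2 * σ ≤ k1)
    (L1 : ∀ (ζ : ℂ) (κ : ℝ), ‖ζ‖ < 1 → 0 < κ → κ < 1 / 2 + k1 → F ζ κ ≠ 0)
    (L2 : ∀ (t : ℝ) (κ : ℂ), 0 ≤ t → t < 1 → 0 < κ.re → κ.re < 1 / 2 + k1 →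
      |κ.im| ≤ c0 * κ.re → F t κ ≠ 0)
    {s : ℂ} (h1 : ‖s‖ < 1) (hre : 0 < s.re) (him : |s.im| ≤ σ * ‖s‖) :
    F (-s ^ 2) (s / (1 + s ^ 2)) ≠ 0 := by
  obtain ⟨u, hu⟩ : ∃ u : ℝ, s.re = u := ⟨_, rfl⟩
  obtain ⟨v, hv⟩ : ∃ v : ℝ, s.im = v := ⟨_, rfl⟩
  obtain ⟨q, hq⟩ : ∃ q : ℝ, ‖s‖ = q := ⟨_, rfl⟩
  have hqq : u ^ 2 + v ^ 2 = q ^ 2 := by
    rw [← hq, Complex.sq_norm, normSq_apply, hu, hv]
    ring
  rw [hq] at h1 him
  rw [hu] at hre
  rw [hv] at him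
  have hq0 : 0 < q := by
    rw [← hq]
    refine norm_pos_iff.2 fun h => ?_
    rw [h] at hu
    simp at hu
    linarith
  obtain ⟨R, hR⟩ : ∃ R : ℝ, R = 1 + q ^ 2 := ⟨_, rfl⟩
  have hσ1 : σ ≤ 1 / 4 := by nlinarith
  have n3 := num_iii hre hqq hq0 hR hc0 hσ0 hσ him
  have n2 := num_ii hre hqq hq0 hR hσ0 hσ1 hk0 hk1 hσk him
  have hN1 : 0 < (1 + u) ^ 2 + v ^ 2 := by positivity
  have hN1e : (1 + u) ^ 2 + v ^ 2 = R + 2 * u := by rw [hR, ← hqq]; ring
  have hDe : (1 + u ^ 2 - v ^ 2) ^ 2 + (2 * u * v) ^ 2 = R ^ 2 - 4 * v ^ 2 := by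
    rw [hR, ← hqq]; ring
  have hq1 : q ^ 2 < 1 := by nlinarith
  have hD : 0 < R ^ 2 - 4 * v ^ 2 := by
    have e : R ^ 2 - 4 * v ^ 2 = (R - 2 * v) * (R + 2 * v) := by ring
    have h2 := abs_le.1 him
    have h3 : σ * q ≤ q / 4 := by nlinarith
    rw [e]
    exact mul_pos (by nlinarith) (by nlinarith)
  have hs2re : (1 + s ^ 2).re = 1 + u ^ 2 - v ^ 2 := by
    rw [sq]
    simp [hu, hv]
    ring
  have hs2im : (1 + s ^ 2).im = 2 * u * v := by
    rw [sq]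
    simp [hu, hv]
    ring
  have hnD : normSq (1 + s ^ 2) = R ^ 2 - 4 * v ^ 2 := by
    rw [normSq_apply, hs2re, hs2im, ← hDe]
    ring
  obtain ⟨κ, hκ⟩ : ∃ κ : ℂ, s / (1 + s ^ 2) = κ := ⟨_, rfl⟩
  have hκre : κ.re = u * R / (R ^ 2 - 4 * v ^ 2) := by
    rw [← hκ, div_re, hnD, hs2re, hs2im, hu, hv, hR, ← hqq]
    ring
  have hκim : κ.im = v * (1 - q ^ 2) / (R ^ 2 - 4 * v ^ 2) := by
    rw [← hκ, div_im, hnD, hs2re, hs2im, hu, hv, ← hqq]
    ring
  have hx1 : (1 : ℂ) + s ≠ 0 := one_add_ne (by rw [hu]; exact hre.le)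
  have hn1 : normSq (1 + s) = R + 2 * u := by
    rw [normSq_apply, ← hN1e]
    simp [hu, hv]
    ring
  have hX1re : ((1 - s) / (1 + s)).re = (1 - q ^ 2) / (R + 2 * u) := by
    rw [div_re, hn1, ← hqq]
    simp [hu, hv]
    ring
  have hX1im : ((1 - s) / (1 + s)).im = -(2 * v) / (R + 2 * u) := by
    rw [div_im, hn1]
    simp [hu, hv]
    ring
  set X : ℝ → ℂ := fun r => ((r : ℂ) - s) / (r + s) with hX
  set bb : ℝ → ℝ := fun r => -κ.im / (X r).re with hbb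
  set aa : ℝ → ℝ := fun r => κ.re - bb r * (X r).im with haa
  have hX1 : X 1 = (1 - s) / (1 + s) := by simp [hX]
  have cX : ContinuousAt X 1 := ContinuousAt.div (by fun_prop) (by fun_prop) (by simpa using hx1)
  have hRu : 0 < R + 2 * u := hN1e ▸ hN1
  have hXne : (X 1).re ≠ 0 := by
    rw [hX1, hX1re]
    exact (div_pos (by linarith) hRu).ne'
  have cre : ContinuousAt (fun r => (X r).re) 1 := continuous_re.continuousAt.comp cX
  have cim : ContinuousAt (fun r => (X r).im) 1 := continuous_im.continuousAt.comp cX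
  have cbb : ContinuousAt bb 1 := continuousAt_const.div cre hXne
  have caa : ContinuousAt aa 1 := continuousAt_const.sub (cbb.mul cim)
  have h1q : (1 - q ^ 2) ≠ 0 := by linarith
  have hRu' : R + 2 * u ≠ 0 := hRu.ne'
  have hD' : R ^ 2 - 4 * v ^ 2 ≠ 0 := hD.ne'
  have hb1 : bb 1 = -(v * (R + 2 * u) / (R ^ 2 - 4 * v ^ 2)) := by
    simp only [hbb]
    rw [hX1, hX1re, hκim]
    field_simp
  have ha1 : aa 1 = (u * R - 2 * v ^ 2) / (R ^ 2 - 4 * v ^ 2) := by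
    simp only [haa]
    rw [hb1, hX1, hX1im, hκre]
    have e : -(v * (R + 2 * u) / (R ^ 2 - 4 * v ^ 2)) * (-(2 * v) / (R + 2 * u)) =
        2 * v ^ 2 / (R ^ 2 - 4 * v ^ 2) := by
      rw [neg_div, neg_mul_neg, div_mul_div_comm, div_eq_div_iff (mul_ne_zero hD' hRu') hD']
      ring
    rw [e, sub_div]
  have hab1 : |bb 1| = |v| * (R + 2 * u) / (R ^ 2 - 4 * v ^ 2) := by
    rw [hb1, abs_neg, abs_div, abs_mul, abs_of_pos hD, abs_of_pos hRu]
  have s3 : |bb 1| < c0 * (aa 1 - |bb 1|) := by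
    rw [hab1, ha1, ← sub_div, ← mul_div_assoc]
    exact (div_lt_div_iff_of_pos_right hD).2 n3
  have s2 : aa 1 + |bb 1| < 1 / 2 + k1 := by
    rw [hab1, ha1, ← add_div, div_lt_iff₀ hD]
    exact n2
  have ev : ∀ᶠ r in 𝓝[<] (1 : ℝ), (q < r ∧ r < 1) ∧ |bb r| < c0 * (aa r - |bb r|) ∧
      aa r + |bb r| < 1 / 2 + k1 := by
    have e1 : ∀ᶠ r in 𝓝[<] (1 : ℝ), q < r ∧ r < 1 := by
      filter_upwards [Ioo_mem_nhdsLT h1] with r hr
      exact hr
    have e2 : ∀ᶠ r in 𝓝 (1 : ℝ), |bb r| < c0 * (aa r - |bb r|) :=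
      cbb.abs.eventually_lt (continuousAt_const.mul (caa.sub cbb.abs)) s3
    have e3 : ∀ᶠ r in 𝓝 (1 : ℝ), aa r + |bb r| < 1 / 2 + k1 :=
      (caa.add cbb.abs).eventually_lt continuousAt_const s2
    filter_upwards [e1, nhdsWithin_le_nhds e2, nhdsWithin_le_nhds e3] with r h1 h2 h3
    exact ⟨h1, h2, h3⟩
  obtain ⟨r, ⟨hr1, hr2⟩, hr3, hr4⟩ := ev.exists
  have hr0 : 0 < r := hq0.trans hr1
  have hrs : (r : ℂ) + s ≠ 0 := by
    intro h
    have := congrArg Complex.re h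
    simp [hu] at this
    linarith
  have hr0c : (r : ℂ) ≠ 0 := by exact_mod_cast hr0.ne'
  have hXH : X r ∈ H := by
    constructor
    · simp only [hX]
      rw [div_re, ← add_div]
      refine div_pos ?_ (normSq_pos.2 hrs)
      have e : ((r : ℂ) - s).re * ((r : ℂ) + s).re + ((r : ℂ) - s).im * ((r : ℂ) + s).im =
          (r - q) * (r + q) := by
        simp [hu, hv]
        linear_combination (-1 : ℝ) * hqq
      rw [e]
      exact mul_pos (by linarith) (by linarith)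
    · simp only [hX]
      rw [norm_div, div_lt_one (norm_pos_iff.2 hrs), ← sq_lt_sq₀ (norm_nonneg _) (norm_nonneg _),
        Complex.sq_norm, Complex.sq_norm, normSq_apply, normSq_apply]
      have e : ((r : ℂ) + s).re * ((r : ℂ) + s).re + ((r : ℂ) + s).im * ((r : ℂ) + s).im -
          (((r : ℂ) - s).re * ((r : ℂ) - s).re + ((r : ℂ) - s).im * ((r : ℂ) - s).im) =
          4 * (r * u) := by
        simp [hu, hv]
        ring
      have := mul_pos hr0 hre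
      linarith
  have key := half_disc hF L1 L2 hr0.le hr2 hc0.le (a := aa r) (b := bb r)
    ((mul_pos_iff_of_pos_left hc0).1 (lt_of_le_of_lt (abs_nonneg _) hr3)) hr4 hr3.le hXH
  have g1 : (1 - X r) / (1 + X r) = s / r := by
    have e1 : 1 - X r = 2 * s / (r + s) := by
      simp only [hX]
      field_simp
      ring
    have e2 : 1 + X r = 2 * r / (r + s) := by
      simp only [hX]
      field_simp
      ring
    rw [e1, e2]
    field_simp
  have g2 : ((aa r : ℝ) : ℂ) - I * (bb r : ℝ) * X r = κ := by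
    have h4 : bb r * (X r).re = -κ.im := by
      simp only [hbb]
      exact div_mul_cancel₀ _ hXH.1.ne'
    apply Complex.ext
    · simp [haa]
    · simp
      linarith
  rw [g1, g2, mul_div_cancel₀ _ hr0c] at key
  rw [hκ]
  exact key

end Pool.Agent.Helper12.GD
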